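import Mathlib
import Pool.Agent.H.MP_a4b8ee_gt.A
import Pool.Agent.H.MP_6e75db_lc.A

set_option autoImplicit false

namespace Pool.Agent.H.MP_78ccb7_gt

open Set Filter Function Cardinal PiNat Topology TopologicalSpace Pool.Agent.H.MP_77d395_lc
open Pool.Agent.H.MP_6e75db_lc (o bd clo)
open Pool.Agent.H.MP_a4b8ee_gt (G V Cy cy mr LF lu ex)

/-- totally paracompact spaces -/
def TP (X : Type) [TopologicalSpace X] : Prop := ∀ B : Set (Set X), IsTopologicalBasis B →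
  ∃ C ⊆ B, LocallyFinite (fun s : C => (s : Set X)) ∧ ⋃₀ C = Set.univ

/-- Menger spaces -/
def Men (X : Type) [TopologicalSpace X] : Prop :=
  ∀ U : ℕ → Set (Set X), (∀ n, (∀ s ∈ U n, IsOpen s) ∧ ⋃₀ U n = Set.univ) →
    ∃ A : ℕ → Set (Set X), (∀ n, A n ⊆ U n ∧ (A n).Finite) ∧ ⋃ n, ⋃₀ A n = Set.univ

/-- Hurewicz spaces -/
def Hur (X : Type) [TopologicalSpace X] : Prop :=
  ∀ U : ℕ → Set (Set X), (∀ n, (∀ s ∈ U n, IsOpen s) ∧ ⋃₀ U n = Set.univ) →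
    ∃ A : ℕ → Set (Set X), (∀ n, A n ⊆ U n ∧ (A n).Finite) ∧ ∀ x, ∀ᶠ n in atTop, x ∈ ⋃₀ A n

@[ext] structure Z (S : Set (ℕ → ℕ)) where
  f : ℕ → ℕ
  y : Finset I
  z : ∀ i j, f i = 0 → i ≤ j → f j = 0
  s : (∀ j, f j ≠ 0) → f ∈ S ∧ y = ∅

variable {S : Set (ℕ → ℕ)}

def Cl (R : Set (Finset I)) : Prop :=
  ∃ γ, ∀ a b : Finset I, (∀ ξ < γ, ξ ∈ a ↔ ξ ∈ b) → a ∈ R → b ∈ R

def Gd (n : ℕ) (φ : List ℕ → Set ℕ) (R : (ℕ → ℕ) → Set (Finset I)) : Prop :=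
  (∀ s : List ℕ, n ≤ s.length → φ s ∈ hyperfilter ℕ ∧ 0 ∈ φ s) ∧ (∀ a, Cl (R a)) ∧
    ∀ a : ℕ → ℕ, (∀ i < n, a i ≠ 0) → ∃ p : Finset I, ∀ y, p ⊆ y → y ∈ R a

def U (φ : List ℕ → Set ℕ) (R : (ℕ → ℕ) → Set (Finset I)) : Set (Z S) :=
  {z | z ∈ V Z.f φ 0 ∧ ((∃ j, z.f j = 0) → z.y ∈ R z.f)}

instance : TopologicalSpace (Z S) := generateFrom {W | ∃ n φ R, Gd n φ R ∧ U φ R = W}

theorem hb : IsTopologicalBasis {W : Set (Z S) | ∃ n φ R, Gd n φ R ∧ U φ R = W} := ⟨by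
  classical
  rintro _ ⟨m, φ, R, g, rfl⟩ _ ⟨n, ψ, T, h, rfl⟩ a p
  refine ⟨_, ⟨max m n, fun u => φ u ∩ ψ u, fun a => R a ∩ T a, ⟨fun u l => ?_, fun a => ?_,
    fun a q => ?_⟩, rfl⟩, ⟨fun i l => ⟨p.1.1 i l, p.2.1 i l⟩, fun q => ⟨p.1.2 q, p.2.2 q⟩⟩, fun _ q =>
      ⟨⟨fun i l => (q.1 i l).1, fun r => (q.2 r).1⟩, fun i l => (q.1 i l).2, fun r => (q.2 r).2⟩⟩
  · have a := g.1 u (le_of_max_le_left l)
    have b := h.1 u (le_of_max_le_right l)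
    exact ⟨inter_mem a.1 b.1, a.2, b.2⟩
  · obtain ⟨γ, c⟩ := g.2.1 a
    obtain ⟨δ, d⟩ := h.2.1 a
    exact ⟨max γ δ, fun x y e r => ⟨c x y (fun ξ l => e ξ (lt_max_of_lt_left l)) r.1,
      d x y (fun ξ l => e ξ (lt_max_of_lt_right l)) r.2⟩⟩
  obtain ⟨x, c⟩ := g.2.2 a fun i l => q i (lt_max_of_lt_left l)
  obtain ⟨y, d⟩ := h.2.2 a fun i l => q i (lt_max_of_lt_right l)
  exact ⟨x ∪ y, fun w r => ⟨c w (Finset.union_subset_left r), d w (Finset.union_subset_right r)⟩⟩,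
  eq_univ_of_forall fun _ => ⟨_, ⟨0, fun _ => Set.univ, fun _ => Set.univ, ⟨fun _ _ =>
    ⟨univ_mem, trivial⟩, fun _ => ⟨o, fun _ _ _ => id⟩, fun _ _ => ⟨∅, fun _ _ => trivial⟩⟩, rfl⟩,
      fun _ _ => trivial, fun _ => trivial⟩, rfl⟩

theorem op {n φ R} (g : Gd n φ R) : IsOpen (U φ R : Set (Z S)) := hb.isOpen ⟨n, φ, R, g, rfl⟩

theorem oc (s : List ℕ) : IsOpen (Cy Z.f s : Set (Z S)) := isOpen_iff_mem_nhds.2 fun x p =>
  mem_of_superset ((op (n := s.length) (φ := fun u => {c | u.length < s.length → c = x.f u.length})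
    (R := fun _ => Set.univ) ⟨fun u l => ⟨univ_mem' fun _ c => (l.not_gt c).elim, fun c =>
      (l.not_gt c).elim⟩, fun _ => ⟨o, fun _ _ _ => id⟩, fun _ _ => ⟨∅, fun _ _ => trivial⟩⟩).mem_nhds
        ⟨fun _ _ => by simp, fun _ => trivial⟩) fun z q => p ▸ cy.2 fun m l => by
          simpa [l] using q.1 m (Nat.zero_le _)

theorem cn (z : Z S) (n : ℕ) : Cy Z.f (res z.f n) ∈ 𝓝 z := (oc _).mem_nhds (cy.2 fun _ _ => rfl)

theorem oy {z : Z S} {j : ℕ} (h : z.f j = 0) {R : Set (Finset I)} (c : Cl R) :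
    IsOpen {w : Z S | w.f = z.f ∧ w.y ∈ R} := by
  convert (oc (res z.f (j + 1))).inter (op (n := j + 1) (φ := fun _ => Set.univ) (R := fun a =>
    {y | a j = 0 → y ∈ R}) ⟨fun _ _ => ⟨univ_mem, trivial⟩, fun a => c.imp fun _ c x y e p q =>
      c x y e (p q), fun a p => ⟨∅, fun _ _ q => (p j j.lt_succ_self q).elim⟩⟩) using 1
  ext w
  refine ⟨fun p => ⟨cy.2 fun _ _ => congrFun p.1 _, fun _ _ => trivial, fun _ _ => p.2⟩, fun p => ?_⟩
  have := (cy.1 p.1 j.lt_succ_self).trans h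
  exact ⟨funext fun i => (le_total i j).elim (fun l => cy.1 p.1 (Nat.lt_succ_of_le l)) fun l =>
    (w.z j i this l).trans (z.z j i h l).symm, p.2.2 ⟨j, this⟩ this⟩

def N (z : Z S) (β : I) : Set (Z S) := {w | w.f = z.f ∧ ∀ ξ < β, ξ ∈ w.y ↔ ξ ∈ z.y}

theorem oN {z : Z S} (h : ∃ j, z.f j = 0) (β : I) : IsOpen (N z β) := oy h.choose_spec
  (R := {y | ∀ ξ < β, ξ ∈ y ↔ ξ ∈ z.y}) ⟨β, fun _ _ e p ξ l => (e ξ l).symm.trans (p ξ l)⟩

theorem sN (z : Z S) (β : I) : z ∈ N z β := ⟨rfl, fun _ _ => .rfl⟩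

theorem nb {z : Z S} {W : Set (Z S)} (h : ∃ j, z.f j = 0) (p : W ∈ 𝓝 z) : ∃ β, N z β ⊆ W := by
  obtain ⟨_, ⟨n, φ, R, g, rfl⟩, a, b⟩ := hb.mem_nhds_iff.1 p
  exact (g.2.1 z.f).imp fun γ c w q => b ⟨fun i l => q.1 ▸ a.1 i l, fun _ => q.1 ▸ c _ _
    (fun ξ l => (q.2 ξ l).symm) (a.2 h)⟩

def NB (z : Z S) (T : Set (Z S)) : Prop :=
  T ∈ 𝓝 z ∧ ((∀ j, z.f j ≠ 0) → ∀ᶠ n in atTop, Cy Z.f (res z.f n) ⊆ T)

def BC (K : Set (Z S)) : Prop := ∀ z ∉ K, NB z Kᶜ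

theorem nc {z : Z S} {T : Set (Z S)} (m : ℕ) (h : Cy Z.f (res z.f m) ⊆ T) : NB z T :=
  ⟨mem_of_superset (cn z m) h, fun _ => (eventually_ge_atTop m).mono fun _ l _ p =>
    h (cy.2 fun _ g => cy.1 p (g.trans_le l))⟩

theorem ni {z : Z S} {A B T : Set (Z S)} (a : NB z A) (b : NB z B) (h : A ∩ B ⊆ T) : NB z T :=
  ⟨mem_of_superset (inter_mem a.1 b.1) h, fun p => ((a.2 p).and (b.2 p)).mono fun _ c =>
    (subset_inter c.1 c.2).trans h⟩

theorem bu {A B : Set (Z S)} (a : BC A) (b : BC B) : BC (A ∪ B) := fun z p =>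
  ni (a z fun c => p (.inl c)) (b z fun c => p (.inr c)) (compl_union A B).ge

theorem be : BC (∅ : Set (Z S)) := fun _ _ => nc 0 fun _ _ => id

theorem bU {n φ R} (g : Gd n φ R) : BC (U φ R : Set (Z S)) := fun z p => by
  by_cases c : z ∈ V Z.f φ 0
  · obtain ⟨⟨j, h⟩, q⟩ := Classical.not_imp.1 fun d => p ⟨c, d⟩
    exact ⟨mem_of_superset ((oy h (R := (R z.f)ᶜ) ((g.2.1 _).imp fun _ c x y e a b => a (c y x
      (fun ξ l => (e ξ l).symm) b))).mem_nhds ⟨rfl, q⟩) fun w a b => a.2 (a.1 ▸ b.2 ⟨j, a.1 ▸ h⟩),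
      fun a => (a j h).elim⟩
  obtain ⟨i, q⟩ : ∃ i, z.f i ∉ φ (res z.f i) := by simpa [V] using c
  refine nc (i + 1) fun w a b => q ?_
  rw [← cy.1 a i.lt_succ_self, ← res_eq_res.2 fun k l => cy.1 a (l.trans i.lt_succ_self)]
  exact b.1 i (Nat.zero_le _)

theorem rz {a : ℕ → ℕ} {n : ℕ} (h : 0 ∈ res a n) : ∃ j < n, a j = 0 := by
  induction n with
  | zero => cases h
  | succ n ih =>
    exact (List.mem_cons.1 h).elim (fun e => ⟨n, n.lt_succ_self, e.symm⟩) fun e =>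
      (ih e).imp fun _ c => ⟨c.1.trans n.lt_succ_self, c.2⟩

open Classical in
theorem rk {𝓑 : Set (Set (Z S))} (h : IsTopologicalBasis 𝓑) (t : List ℕ) : ∃ φ K C, G 0 φ ∧
    IsOpen K ∧ BC K ∧ C ⊆ 𝓑 ∧ (∀ z, LF C z) ∧ (∀ B ∈ C, B ⊆ Cy Z.f t) ∧ (∀ x : Z S, (∀ j, x.f j ≠ 0) →
      x ∈ V Z.f φ t.length → x ∈ Cy Z.f t → x ∈ K) ∧ K ⊆ ⋃₀ C := by
  choose e he using fun α => countable_iff_exists_injOn.1 (cI α)
  let H : I → ℕ → Set (Finset I) := fun α k => {y | ∃ ξ ∈ y, ξ < α ∧ k ≤ e α ξ}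
  let P : List ℕ → I → ℕ → Prop := fun s α k => ∃ φ K C, G 0 φ ∧ IsOpen K ∧ BC K ∧ C ⊆ 𝓑 ∧
    (∀ z, LF C z) ∧ (∀ B ∈ C, B ⊆ Cy Z.f t ∧ ∀ z ∈ B, List.Forall₂ (fun a c => c = 0 ∨ a ≤ c) s
      (res z.f s.length) ∧ (0 ∈ res z.f s.length → z.y ∈ H α k)) ∧ (∀ x : Z S, (∀ j, x.f j ≠ 0) →
        x ∈ V Z.f φ s.length → x ∈ Cy Z.f s → x ∈ K) ∧ K ⊆ ⋃₀ C
  let Q : List ℕ → Prop := fun s => ∀ k, ∃ β, ∀ α, β ≤ α → P s α k
  have c1 : ∀ s, {b | Q (b :: s)} ∈ hyperfilter ℕ → Q s := fun s a k => by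
    choose! β hβ using fun b (q : b ∈ {b | Q (b :: s)}) => q (max k b)
    refine (bd (countable_range β)).imp fun γ g α l => ?_
    choose! φ K C p1 k1 k2 p2 p4 p5 p6 p7 using fun b q => hβ b q α ((g _ ⟨b, rfl⟩).le.trans l)
    refine ⟨fun u => {b | u = s → Q (b :: s)} ∩ ⋂ b ∈ {b | Q (b :: s)} ∩ {b | b ∈ u}, φ b u,
      ⋃ b ∈ {b | Q (b :: s)}, K b ∩ Cy Z.f (b :: s), ⋃ b ∈ {b | Q (b :: s)}, C b, fun u _ =>
      inter_mem (mem_of_superset a fun _ p _ => p) ((biInter_mem (u.finite_toSet.inter_of_right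
        _)).2 fun b p => p1 b p.1 u (Nat.zero_le _)), isOpen_biUnion fun b q => (k1 b q).inter (oc _),
      fun z n => ?_, iUnion₂_subset p2, fun x => ?_, fun B r => ?_, fun x n q r => ?_,
      iUnion₂_subset fun b q x r => let ⟨B, a, c⟩ := p7 b q r.1; ⟨B, mem_biUnion q a, c⟩⟩
    · have : ∀ w ∈ Cy Z.f (res z.f (s.length + 1)), w ∈ ⋃ b ∈ {b | Q (b :: s)}, K b ∩
          Cy Z.f (b :: s) → Q (z.f s.length :: s) ∧ w ∈ K (z.f s.length) ∧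
            z ∈ Cy Z.f (z.f s.length :: s) := fun w a b => by
        obtain ⟨b, q, r, u⟩ := mem_iUnion₂.1 b
        have := (res_eq_res.2 (cy.1 a)).symm.trans u
        obtain rfl : z.f s.length = b := (List.cons.inj this).1
        exact ⟨q, r, this⟩
      by_cases c : Q (z.f s.length :: s) ∧ z ∈ Cy Z.f (z.f s.length :: s)
      · exact ni (nc _ Subset.rfl) (k2 _ c.1 z fun d => n (mem_biUnion c.1 ⟨d, c.2⟩))
          fun w a b => a.2 (this w a.1 b).2.1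
      exact nc _ fun w a b => c ⟨(this w a b).1, (this w a b).2.2⟩
    · by_cases c : x.f s.length = 0
      · refine lu (fun b q => p4 b q x) ((oy c (R := (H α (x.y.sup (e α) + 1))ᶜ) ⟨α, fun a b d m
          ⟨ξ, p, q⟩ => m ⟨ξ, (d ξ q.1).2 p, q⟩⟩).mem_nhds ⟨rfl, fun ⟨ξ, p, q⟩ => (Nat.lt_of_succ_le
            q.2).not_ge (Finset.le_sup p)⟩) (finite_Iic (x.y.sup (e α))) fun b q B r z u w => ?_
        obtain ⟨ξ, p, m, n⟩ := ((p5 b q B r).2 z u).2 (List.mem_cons.2 (.inl (w.1 ▸ c.symm)))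
        exact mem_Iic.2 (not_lt.1 fun d => w.2 ⟨ξ, p, m, d.trans_le (le_of_max_le_right n)⟩)
      exact lu (fun b q => p4 b q x) (cn x (s.length + 1)) (finite_Iic (x.f s.length))
        fun b q B r z u w => ((cy.1 w (Nat.lt_succ_self _) ▸ (List.forall₂_cons.1
          ((p5 b q B r).2 z u).1).1 : x.f s.length = 0 ∨ _)).resolve_left c
    · obtain ⟨b, q, r⟩ := mem_iUnion₂.1 r
      refine ⟨(p5 b q B r).1, fun z u => ⟨(List.forall₂_cons.1 ((p5 b q B r).2 z u).1).2, fun v => ?_⟩⟩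
      exact (((p5 b q B r).2 z u).2 (.tail _ v)).imp fun ξ c => ⟨c.1, c.2.1, le_of_max_le_left c.2.2⟩
    have k := (q _ le_rfl).1 r
    have m : x ∈ Cy Z.f (x.f s.length :: s) := congrArg (x.f s.length :: ·) r
    exact mem_biUnion k ⟨p6 _ k x n (fun i l => mem_iInter₂.1 (q i (Nat.le_of_succ_le l)).2 _
      ⟨k, mr _ l⟩) m, m⟩
  suffices q : Q t from let ⟨β, q⟩ := q 0; let ⟨φ, K, C, a, b, c, d, e, f, g⟩ := q β le_rfl
    ⟨φ, K, C, a, b, c, d, e, fun B p => (f B p).1, g⟩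
  by_contra n
  refine n fun _ => ⟨o, fun _ _ => ⟨fun u => {b | ¬ Q u → ¬ Q (b :: u)}, ∅, ∅, fun u _ => ?_,
    isOpen_empty, be, empty_subset _, fun x => ⟨_, univ_mem, by simp⟩, by simp, fun x m p q => ?_,
    empty_subset _⟩⟩
  · by_cases c : Q u
    · exact univ_mem' fun _ d => (d c).elim
    exact mem_of_superset (Ultrafilter.compl_mem_iff_notMem.2 (mt (c1 u) c)) fun _ p _ => p
  have k : ∀ m, t.length ≤ m → ¬ Q (res x.f m) := fun m l => by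
    induction l with
    | refl => exact q.symm ▸ n
    | step l ih => exact p _ l ih
  choose! κ hκ using fun u (c : ¬ Q u) => not_forall.1 c
  obtain ⟨ξ, hξ⟩ := unc (s := ⋃ u ∈ {u | ¬ Q u}, {ξ | ∀ α, ξ < α → κ u ≤ e α ξ → P u α (κ u)})
    ((to_countable _).biUnion fun u c => Finite.countable (by_contra fun i => by
      obtain ⟨b, g⟩ := bd (countable_range fun n => (Set.Infinite.natEmbedding _ i n).1)
      refine hκ u c ⟨b, fun α l => by_contra fun d => (finite_Iio (κ u)).not_infinite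
        (infinite_of_injective_forall_mem (f := fun n => e α (Set.Infinite.natEmbedding _ i n))
          (fun m n c => (Set.Infinite.natEmbedding _ i).injective (Subtype.ext (he α ?_ ?_ c))) fun n =>
            not_le.1 fun c => d ((Set.Infinite.natEmbedding _ i n).2 α ((g _ ⟨n, rfl⟩).trans_le l) c))⟩ <;>
      exact mem_Iic.2 ((g _ ⟨_, rfl⟩).le.trans l)))
  obtain ⟨B, b1, b2, b3⟩ := h.exists_subset_of_mem_open (mem_inter q (And.intro (fun i _ => .inr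
    (by simp)) fun ⟨j, c⟩ => (m j c).elim)) ((oc t).inter (op (n := 0) (φ := fun u => {c | c = 0 ∨ x.f u.length ≤ c})
      (R := fun _ => {y | ξ ∈ y}) ⟨fun u _ => ⟨mem_hyperfilter_of_finite_compl ((finite_Iio
        (x.f u.length)).subset fun c d => not_le.1 fun a => d (.inr a)), .inl rfl⟩, fun _ =>
          (bd (countable_singleton ξ)).imp fun _ c _ _ d => (d ξ (c ξ rfl)).1, fun _ _ =>
            ⟨{ξ}, fun _ c => c (Finset.mem_singleton_self ξ)⟩⟩))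
  obtain ⟨_, ⟨m, ψ, R, g, rfl⟩, v1, v2⟩ := hb.exists_subset_of_mem_open b2 (h.isOpen b1)
  refine hξ (mem_biUnion (k _ (le_max_left _ m)) fun α l c => ⟨fun u => {c | m ≤ u.length → c ∈ ψ u},
    U ψ R, {B}, fun u _ => ?_, op g, bU g, by simpa, fun x => ⟨_, univ_mem, (finite_singleton B).sep _⟩,
    fun _ e => e ▸ ⟨fun z r => (b3 r).1, fun z r => ⟨?_, fun d => ⟨ξ, (b3 r).2.2 ((rz d).imp
      fun _ => And.right), l, c⟩⟩⟩, fun z n r s => ⟨fun i _ => ?_, fun ⟨j, c⟩ => (n j c).elim⟩,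
    by simpa⟩)
  · by_cases c : m ≤ u.length
    exacts [mem_of_superset (g.1 u c).1 fun _ p _ => p, univ_mem' fun _ d => (c d).elim]
  · rw [res_length]
    induction max t.length m with
    | zero => exact .nil
    | succ n ih => exact .cons (by simpa using (b3 r).2.1 n (Nat.zero_le _)) ih
  rcases lt_or_ge i (max t.length m) with l | l
  · rw [cy.1 s l, res_eq_res.2 fun k a => cy.1 s (a.trans l)]
    exact v1.1 i (Nat.zero_le _)
  exact r i (by simpa using l) (by simpa using le_of_max_le_right l)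

open Classical in
theorem rf (γ : Z S → I → I) : ∃ (z : ℕ → Z S) (δ : I), o < δ ∧ (∀ k, (∃ j, (z k).f j = 0) ∧
    ∀ β < δ, γ (z k) β < δ) ∧ ∀ w : Z S, (∃ j, w.f j = 0) → ∃ k, w ∈ N (z k) δ := by
  have c : ∀ δ, {z : Z S | (∃ j, z.f j = 0) ∧ ∀ ξ ∈ z.y, ξ ≤ δ}.Countable := fun δ =>
    (((countable_range ((⇑) : (ℕ →₀ ℕ) → ℕ → ℕ)).prod ((countable_ofPred_finite_subset (cI δ)).preimage
      Finset.coe_injective)).preimage (f := fun z : Z S => (z.f, z.y)) fun _ _ e => Z.ext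
        (congrArg Prod.fst e) (congrArg Prod.snd e)).mono fun z ⟨⟨j, p⟩, q⟩ => And.intro
          ⟨.onFinset (.range j) z.f fun i a => Finset.mem_range.2 (not_le.1 (mt (z.z j i p) a)), rfl⟩
          ⟨z.y.finite_toSet, q⟩
  choose G hG using fun β => bd ((c β).image2 (cI β) γ)
  obtain ⟨δ, d1, d2⟩ := clo G
  obtain ⟨z, hz⟩ := ((c δ).mono (s₁ := {z : Z S | (∃ j, z.f j = 0) ∧ ∀ ξ ∈ z.y, ξ < δ})
    fun z p => And.intro p.1 fun ξ q => (p.2 ξ q).le).exists_eq_range ⟨⟨0, ∅, fun _ _ _ _ => rfl, fun c => (c 0 rfl).elim⟩,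
      ⟨0, rfl⟩, by simp⟩
  refine ⟨z, δ, d1, fun k => ⟨(hz.ge ⟨k, rfl⟩).1, fun β l => ?_⟩, fun w p => ?_⟩
  · obtain ⟨a, a1, a2⟩ := (insert β (z k).y).exists_max_image id (by simp)
    exact (hG a _ (mem_image2_of_mem ⟨(hz.ge ⟨k, rfl⟩).1, fun ξ q => a2 ξ (by simp [q])⟩ (a2 β
      (by simp)))).trans (d2 a ((Finset.mem_insert.1 a1).elim (· ▸ l) ((hz.ge ⟨k, rfl⟩).2 a)))
  obtain ⟨k, e⟩ := (Set.ext_iff.1 hz ⟨w.f, w.y.filter (· < δ), w.z, fun c => (c _ p.choose_spec).elim⟩).1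
    ⟨p, fun _ q => (Finset.mem_filter.1 q).2⟩
  exact ⟨k, e ▸ ⟨rfl, fun ξ l => by simp [l]⟩⟩

open Classical in
theorem yp {𝓑 : Set (Set (Z S))} (h : IsTopologicalBasis 𝓑) {O : Set (Z S)} (a : IsClopen O)
    (b : ∀ z ∉ O, ∃ j, z.f j = 0) : ∃ C ⊆ 𝓑, (∀ z, LF C z) ∧ Oᶜ ⊆ ⋃₀ C := by
  have : ∀ (z : Z S) β, ∃ B γ, (∃ j, z.f j = 0) → B ∈ 𝓑 ∧ B ⊆ N z β ∧ (B ⊆ O ∨ B ⊆ Oᶜ) ∧
      N z γ ⊆ B := fun z β => by
    by_cases c : ∃ j, z.f j = 0
    swap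
    · exact ⟨∅, o, fun d => (c d).elim⟩
    obtain ⟨W, w1, w2, w3⟩ : ∃ W, IsOpen W ∧ z ∈ W ∧ (W = O ∨ W = Oᶜ) := (Classical.em (z ∈ O)).elim
      (⟨O, a.2, ·, .inl rfl⟩) (⟨Oᶜ, a.compl.2, ·, .inr rfl⟩)
    obtain ⟨B, b1, b2, b3⟩ := h.exists_subset_of_mem_open (mem_inter (sN z β) w2) ((oN c β).inter w1)
    obtain ⟨γ, g⟩ := nb c (h.mem_nhds b1 b2)
    exact ⟨B, γ, fun _ => ⟨b1, fun _ p => (b3 p).1, w3.imp (fun e _ p => e.le (b3 p).2)
      fun e _ p => e.le (b3 p).2, g⟩⟩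
  choose B γ hB using this
  obtain ⟨z, δ, d, z1, z2⟩ := rf γ
  let β : ℕ → I := Nat.rec o fun k x => max x (γ (z k) x)
  have m : Monotone β := monotone_nat_of_le_succ fun _ => le_max_left _ _
  have l : ∀ k, β k < δ := fun k => by
    induction k with
    | zero => exact d
    | succ k ih => exact max_lt ih ((z1 k).2 _ ih)
  have t : ∀ {u v w : Z S} {x y}, x ≤ y → w ∈ N u y → u ∈ N v x → w ∈ N v x := fun e p q =>
    ⟨p.1.trans q.1, fun ξ l => (p.2 ξ (l.trans_le e)).trans (q.2 ξ l)⟩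
  have k : ∀ w ∉ O, ∃ j, (∀ i < j, z j ∉ N (z i) (β (i + 1))) ∧ w ∈ N (z j) (β (j + 1)) := fun w p => by
    have c : ∃ j, w ∈ N (z j) (β (j + 1)) := (z2 w (b w p)).imp fun j c => t (l (j + 1)).le c (sN _ _)
    exact ⟨_, fun i g q => Nat.find_min c g (t (m (Nat.succ_le_succ g.le)) (Nat.find_spec c) q),
      Nat.find_spec c⟩
  refine ⟨(fun k => B (z k) (β k)) '' {j | (∀ i < j, z j ∉ N (z i) (β (i + 1))) ∧ B (z j) (β j) ⊆ Oᶜ},
    image_subset_iff.2 fun k _ => (hB _ _ (z1 k).1).1, fun w => ?_, fun w p => ?_⟩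
  · by_cases c : w ∈ O
    · exact ⟨O, a.2.mem_nhds c, finite_empty.subset fun _ ⟨⟨_, p, e⟩, _, q, r⟩ => p.2 (e.ge q) r⟩
    obtain ⟨j, -, p⟩ := k w c
    refine ⟨_, (oN (z1 j).1 _).mem_nhds p, ((finite_Iic j).image fun k => B (z k) (β k)).subset ?_⟩
    rintro _ ⟨⟨i, q, rfl⟩, u, r, s⟩
    replace r := (hB _ _ (z1 i).1).2.1 r
    exact ⟨i, not_lt.1 fun g => q.1 j g (t (m g) ⟨r.1.symm, fun ξ l => (r.2 ξ l).symm⟩ s), rfl⟩
  obtain ⟨j, q, r⟩ := k w p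
  replace r := (hB _ _ (z1 j).1).2.2.2 (t (le_max_right _ _) r (sN _ _))
  exact ⟨_, ⟨j, ⟨q, (hB _ _ (z1 j).1).2.2.1.resolve_left fun c => p (c r)⟩, rfl⟩, r⟩

open Classical in
theorem tp (hc : ∀ φ, G 0 φ → {x : Z S | (∀ j, x.f j ≠ 0) ∧ ∀ n, x ∉ V Z.f φ n}.Countable)
    (x0 : Z S) : TP (Z S) := fun 𝓑 h => by
  choose φ p2 using rk h
  obtain ⟨z, hz⟩ := ((hc (fun u => ⋂ w ∈ u.tails, φ w u) fun u _ => (biInter_mem
    u.tails.finite_toSet).2 fun w _ => (p2 w).choose_spec.choose_spec.1 u (Nat.zero_le _)).insert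
      x0).exists_eq_range (insert_nonempty _ _)
  have : ∀ w k, ∃ K C, IsOpen K ∧ BC K ∧ C ⊆ 𝓑 ∧ (∀ z, LF C z) ∧ (∀ B ∈ C, B ⊆ Cy Z.f w) ∧
      (∀ x : Z S, (∀ j, x.f j ≠ 0) → x ∈ V Z.f (φ w) w.length → x ∈ Cy Z.f w → x ∈ K) ∧ K ⊆ ⋃₀ C ∧
        ∀ j < k, z j ∈ Cy Z.f w → z j ∈ K := fun w k => by
    induction k with
    | zero =>
      obtain ⟨K, C, -, a, b, c, d, e, f, g⟩ := p2 w
      exact ⟨K, C, a, b, c, d, e, f, g, by simp⟩
    | succ k ih =>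
      obtain ⟨K, C, k1, k2, c1, c3, c4, k3, c5, k4⟩ := ih
      by_cases c : z k ∈ Cy Z.f w
      swap
      · exact ⟨K, C, k1, k2, c1, c3, c4, k3, c5, fun j l a => k4 j (lt_of_le_of_ne
          (Nat.le_of_lt_succ l) fun e => c (e ▸ a)) a⟩
      obtain ⟨B, b1, b2, b3⟩ := h.exists_subset_of_mem_open c (oc w)
      obtain ⟨_, ⟨m, ψ, R, g, rfl⟩, v1, v2⟩ := hb.exists_subset_of_mem_open b2 (h.isOpen b1)
      exact ⟨K ∪ U ψ R, insert B C, k1.union (op g), bu k2 (bU g), insert_subset b1 c1, fun x =>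
        (c3 x).imp fun t a => ⟨a.1, (a.2.insert B).subset fun _ r => r.1.imp id (⟨·, r.2⟩)⟩,
        forall_mem_insert.2 ⟨b3, c4⟩, fun x a b c => .inl (k3 x a b c), fun x a => sUnion_insert B C ▸
          a.symm.imp (v2 ·) (c5 ·), fun j l a => (Nat.lt_succ_iff_lt_or_eq.1 l).elim
            (fun l => .inl (k4 j l a)) fun e => .inr (e ▸ v1)⟩
  choose K C k1 k2 c1 c3 c4 k3 c5 k4 using fun w => this w w.length
  let F : List ℕ → Set (Z S) := List.rec ∅ fun _ s T => T ∪ if Disjoint (Cy Z.f s) T then K s else ∅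
  have f1 : ∀ s, BC (F s) := fun s => by
    induction s with
    | nil => exact be
    | cons b s ih => exact bu ih (by split_ifs; exacts [k2 s, be])
  have f2 : ∀ x : Z S, (∀ j, x.f j ≠ 0) → ∃ m, Disjoint (Cy Z.f (res x.f m)) (F (res x.f m)) ∧
      x ∈ K (res x.f m) := fun x i => by
    by_contra! n
    have a : ∀ m, x ∉ F (res x.f m) := fun m => by
      induction m with
      | zero => exact id
      | succ m ih => exact fun c => c.elim ih (by split_ifs with d; exacts [n m d, id])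
    obtain ⟨l, b⟩ : ∃ l, ∀ m, l ≤ m → x ∈ K (res x.f m) := by
      by_cases c : x ∈ range z
      · obtain ⟨j, rfl⟩ := c
        exact ⟨j + 1, fun m l => k4 _ j (by simpa using l) (cy.2 fun _ _ => rfl)⟩
      obtain ⟨l, c⟩ := Classical.not_forall_not.1 fun d => c (hz ▸ .inr ⟨i, d⟩)
      refine ⟨l, fun m a => k3 _ x i (fun i b => ?_) (cy.2 fun _ _ => rfl)⟩
      rw [res_length] at b
      refine mem_iInter₂.1 (c i (a.trans b)) _ ((List.mem_tails _ _).2 ?_)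
      induction b with
      | refl => rfl
      | step _ ih => exact ih.trans (List.suffix_cons _ _)
    have c : ∀ m, l ≤ m → F (res x.f m) = F (res x.f l) := fun m p => by
      induction p with
      | refl => rfl
      | step p ih => exact (congrArg _ (if_neg fun d => n _ d (b _ p))).trans ((union_empty _).trans ih)
    obtain ⟨m, d, e⟩ := (((f1 _ x (a l)).2 i).and (eventually_ge_atTop l)).exists
    exact n m ((c m e).symm ▸ subset_compl_iff_disjoint_right.1 d) (b m e)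
  let A := {w | 0 ∉ w ∧ Disjoint (Cy Z.f w) (F w)}
  have r : ∀ (x y : Z S) m, y ∈ Cy Z.f (res x.f m) → ∀ w, y ∈ Cy Z.f w → w.length ≤ m →
      w ∈ res x.f '' Iic m := fun x y m v w r l =>
    ⟨_, l, (res_eq_res.2 fun i g => cy.1 v (g.trans_le l)).symm.trans r⟩
  have s : ∀ (x y : Z S) j, x.f j = 0 → y ∈ Cy Z.f (res x.f (j + 1)) → ∀ w ∈ A, y ∈ Cy Z.f w →
      w ∈ res x.f '' Iic (j + 1) := fun x y j e v w a u => r x y _ v w u (not_lt.1 fun l => a.1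
    (u ▸ e ▸ cy.1 v j.lt_succ_self ▸ mr _ (j.lt_succ_self.trans l)))
  have t : ∀ x : Z S, (∀ j, x.f j ≠ 0) → x ∈ ⋃ w ∈ A, K w := fun x i => let ⟨m, d, e⟩ := f2 x i
    mem_biUnion ⟨fun c => let ⟨j, _, c⟩ := rz c; i j c, d⟩ e
  have u : ∀ x, LF (⋃ w ∈ A, C w) x := fun x => by
    by_cases i : ∃ j, x.f j = 0
    · exact lu (fun w _ => c3 w x) (cn x _) ((finite_Iic _).image _) fun w a B b y u v =>
        s x y _ i.choose_spec v w a (c4 w B b u)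
    obtain ⟨m, d, e⟩ := f2 x (not_exists.1 i)
    refine lu (fun w _ => c3 w x) (inter_mem ((k1 _).mem_nhds e) (cn x m))
      ((finite_Iic m).image (res x.f)) fun w a B b y u v => r x y m v.2 w (c4 w B b u)
        (not_lt.1 fun l => disjoint_left.1 a.2 (c4 w B b u) (c4 w B b u ▸ monotone_nat_of_le_succ
          (f := fun i => F (res y.f i)) (fun _ => subset_union_left) l (.inr ?_)))
    rw [res_eq_res.2 (cy.1 v.2), if_pos d]
    exact v.1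
  have v : ∀ z ∉ ⋃ w ∈ A, K w, ∃ j, z.f j = 0 := fun z p => by_contra fun c => p (t z (not_exists.1 c))
  obtain ⟨D, d1, d2, d3⟩ := yp h (O := ⋃ w ∈ A, K w) ⟨⟨isOpen_iff_mem_nhds.2 fun z p => by
    obtain ⟨j, e⟩ := v z p
    refine mem_of_superset (inter_mem (cn z (j + 1)) ((biInter_mem (((finite_Iic (j + 1)).image
      (res z.f)).inter_of_right A)).2 fun w a => (k2 w z fun c => p (mem_biUnion a.1 c)).1))
        fun y q c => ?_
    obtain ⟨w, a, c⟩ := mem_iUnion₂.1 c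
    obtain ⟨B, b, d⟩ := c5 w c
    exact mem_iInter₂.1 q.2 w ⟨a, s z y j e q.1 w a (c4 w B b d)⟩ c⟩,
    isOpen_biUnion fun w _ => k1 w⟩ v
  refine ⟨(⋃ w ∈ A, C w) ∪ D, union_subset (iUnion₂_subset fun w _ => c1 w) d1, fun x => ?_,
    eq_univ_of_forall fun x => ?_⟩
  · obtain ⟨a, a1, a2⟩ := u x
    obtain ⟨b, b1, b2⟩ := d2 x
    exact ⟨_, inter_mem a1 b1, ((a2.union b2).preimage Subtype.val_injective.injOn).subset
      fun B ⟨y, p, q⟩ => B.2.imp (⟨·, y, p, q.1⟩) (⟨·, y, p, q.2⟩)⟩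
  rw [sUnion_union]
  refine (Classical.em _).imp (fun c => ?_) (d3 ·)
  obtain ⟨w, a, c⟩ := mem_iUnion₂.1 c
  obtain ⟨B, b, d⟩ := c5 w c
  exact ⟨B, mem_biUnion a b, d⟩

theorem hu : Hur {z : Z S | ∃ j, z.f j = 0} := fun W h => by
  have : ∀ n (z : Z S), ∃ B γ, (∃ j, z.f j = 0) → B ∈ W n ∧ Subtype.val ⁻¹' N z γ ⊆ B := fun n z => by
    by_cases c : ∃ j, z.f j = 0
    swap
    · exact ⟨∅, o, fun d => (c d).elim⟩
    obtain ⟨B, b1, b2⟩ := (h n).2.ge (mem_univ ⟨z, c⟩)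
    obtain ⟨T, t, rfl⟩ := isOpen_induced_iff.1 ((h n).1 B b1)
    exact ⟨_, (nb c (t.mem_nhds b2)).imp fun _ g _ => ⟨b1, preimage_mono g⟩⟩
  choose B γ hB using this
  choose g hg using fun z => bd (countable_range fun n => γ n z)
  obtain ⟨z, δ, d, z1, z2⟩ := rf fun z _ => g z
  refine ⟨fun n => (fun k => B n (z k)) '' Iic n, fun n => ⟨image_subset_iff.2 fun k _ =>
    (hB n _ (z1 k).1).1, (finite_Iic n).image _⟩, fun x => ?_⟩
  obtain ⟨k, p⟩ := z2 x x.2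
  exact (eventually_ge_atTop k).mono fun n l => ⟨_, ⟨k, l, rfl⟩, (hB n _ (z1 k).1).2 ⟨p.1, fun ξ c =>
    p.2 ξ (c.trans ((hg _ _ ⟨n, rfl⟩).trans ((z1 k).2 o d)))⟩⟩

theorem main (hc : (𝔠 : Cardinal.{0}) = ℵ₁) : ∃ (X : Type) (_ : TopologicalSpace X), T3Space X ∧
    TP X ∧ (∃ Y : Set X, Dense Y ∧ Hur Y) ∧ ¬ Men X := by
  classical
  obtain ⟨x, x1, x2⟩ := ex hc
  have : RegularSpace (Z (range x)) := .of_hasBasis (fun _ => hb.nhds_hasBasis)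
    fun _ _ ⟨⟨_, _, _, g, e⟩, _⟩ => e ▸ ⟨isOpen_iff_mem_nhds.2 fun z p => (bU g z p).1⟩
  have : T0Space (Z (range x)) := ⟨fun a b e => by
    have p : a.f = b.f := funext fun n => cy.1 ((e.mem_open_iff (oc _)).2 (cy.2 fun _ _ => rfl) :
      a ∈ Cy Z.f (res b.f (n + 1))) n.lt_succ_self
    by_cases c : ∃ j, b.f j = 0
    · refine Z.ext p (Finset.ext fun ξ => ?_)
      obtain ⟨β, l⟩ := bd (countable_singleton ξ)
      exact ((e.mem_open_iff (oN c β)).2 (sN b β)).2 ξ (l ξ rfl)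
    exact Z.ext p ((a.s (p ▸ not_exists.1 c)).2.trans (b.s (not_exists.1 c)).2.symm)⟩
  refine ⟨Z (range x), inferInstance, {}, tp (fun φ g => MapsTo.countable_of_injOn (f := Z.f)
    (fun z p => (z.s p.1).1.imp fun a (e : x a = z.f) => And.intro (fun n c => p.2 n fun i l => e ▸ c i l) e) (fun a p b q e =>
      Z.ext e ((a.s p.1).2.trans (b.s q.1).2.symm)) ((x1 φ g).image x)) ⟨0, ∅, fun _ _ _ _ => rfl,
        fun c => (c 0 rfl).elim⟩, ⟨_, hb.dense_iff.2 ?_, hu⟩, fun m => ?_⟩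
  · rintro _ ⟨n, φ, R, g, rfl⟩ ⟨z, p⟩
    by_cases c : ∃ j, z.f j = 0
    · exact ⟨z, p, c⟩
    have e : ∀ i ≤ n, res (fun i => if i < n then z.f i else 0) i = res z.f i := fun i l =>
      res_eq_res.2 fun m q => if_pos (q.trans_le l)
    obtain ⟨y, q⟩ := g.2.2 (fun i => if i < n then z.f i else 0) fun i l => by
      simpa [l] using not_exists.1 c i
    refine ⟨⟨_, y, fun i j a l => if_neg fun b => not_exists.1 c i ((if_pos (l.trans_lt b)).symm.trans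
      a), fun c => (c n (if_neg (lt_irrefl n))).elim⟩, ⟨fun i _ => ?_, fun _ => q y Subset.rfl⟩, n,
        if_neg (lt_irrefl n)⟩
    by_cases l : i < n
    · simpa only [e i l.le, if_pos l] using p.1 i (Nat.zero_le _)
    simpa only [if_neg l] using (g.1 _ (by simpa using l)).2
  obtain ⟨A, a, e⟩ := m (fun n => range fun s : {s : List ℕ // s.length = n + 1} => Cy Z.f s.1)
    fun n => ⟨forall_mem_range.2 fun s => oc _, eq_univ_of_forall fun z => ⟨_, ⟨⟨res z.f (n + 1),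
      res_length _ _⟩, rfl⟩, cy.2 fun _ _ => rfl⟩⟩
  have : ∀ n, {k | ∃ B ∈ A n, ∃ z ∈ B, z.f n = k}.Finite := fun n => by
    refine ((a n).2.biUnion (t := fun B => {k | ∃ z ∈ B, z.f n = k}) fun B p => ?_).subset
      fun k ⟨B, p, q⟩ => mem_biUnion p q
    obtain ⟨⟨s, l⟩, rfl⟩ := (a n).1 p
    refine (finite_singleton s.headI).subset ?_
    rintro _ ⟨z, q, rfl⟩
    exact congrArg List.headI (l ▸ q : res z.f (n + 1) = s)
  obtain ⟨y, p⟩ := x2 (fun u => (insert 0 {k | ∃ B ∈ A u.length, ∃ z ∈ B, z.f u.length = k})ᶜ)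
    fun u _ => mem_hyperfilter_of_finite_compl (by simpa only [compl_compl] using (this _).insert 0)
  have q := fun j c => p j (Nat.zero_le j) (.inl c)
  obtain ⟨n, B, b, r⟩ := mem_iUnion.1 (e.ge (mem_univ ⟨x y, ∅, fun i _ c _ => (q i c).elim,
    fun _ => ⟨⟨y, rfl⟩, rfl⟩⟩))
  exact p n (Nat.zero_le n) (.inr ((res_length _ _).symm ▸ ⟨B, b, _, r, rfl⟩))

end Pool.Agent.H.MP_78ccb7_gt
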